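import Pool.Agent.EF97.Main

/-!
# MP_a0fe07_gt: a counterexample with a connected group

The group is `U(4)` and the surface is the Klein bottle. All definitions used in the statement are
in `Pool/Agent/MP_a0fe07/Defs.lean` (cubical cochains, the Serre filtration and the collapse at
`E_2` of its spectral sequence, universal bundles and the Borel construction, `Hom(π, G)` with the
conjugation action, compact Lie groups). `Pool/Agent/MP_a0fe07/Pages.lean` constructs the pages
`E_r` and the differentials `d_r` and checks (`collapsesAtE2_iff`) that `CollapsesAtE2` says that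
`d_r = 0` for all `r ≥ 2`.
-/

namespace Pool.Agent.Results.MP_a0fe07_gt.ConnectedGroup

open Pool.Agent.MP_a0fe07

/-- The unitary group `U(4)` is a path connected compact Lie group, it has a universal principal
bundle, and its conjugation action on `Hom(π₁(K), U(4))`, where `K` is the Klein bottle and
`π₁(K) = ⟨a_1, a_2 ∣ a_1² a_2² = 1⟩`, is not equivariantly formal: for no universal principal bundle
`E → E/U(4)` does the Serre spectral sequence (rational coefficients) of
`Hom(π₁(K), U(4)) → E ×_{U(4)} Hom(π₁(K), U(4)) → E/U(4)` collapse at `E_2`. -/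
theorem result :
    IsCompactLieGroup (Matrix.unitaryGroup (Fin 4) ℂ) ∧
    PathConnectedSpace (Matrix.unitaryGroup (Fin 4) ℂ) ∧
    (∃ (E : Type) (_ : TopologicalSpace E) (_ : MulAction (Matrix.unitaryGroup (Fin 4) ℂ) E),
      IsUniversalBundle (Matrix.unitaryGroup (Fin 4) ℂ) E) ∧
    ¬ EquivariantlyFormal (Matrix.unitaryGroup (Fin 4) ℂ)
      (Rep (SurfaceGroup 2) (Matrix.unitaryGroup (Fin 4) ℂ)) :=
  Pool.Agent.EF97.main

end Pool.Agent.Results.MP_a0fe07_gt.ConnectedGroup
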