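import Pool.Agent.MP_a0fe07.Rep
import Pool.Agent.MP_a0fe07.Bundle

/-!
# MP_a0fe07_gt: representation spaces of nonorientable surface groups need not be
equivariantly formal

All definitions are in `Pool/Agent/MP_a0fe07/Defs.lean` (cubical cochains, the Serre filtration and
the collapse at `E_2` of its spectral sequence, universal bundles and the Borel construction,
`Hom(π, G)` with the conjugation action, compact Lie groups).  `Pool/Agent/MP_a0fe07/Pages.lean`
constructs the pages `E_r` and the differentials `d_r` and checks (`collapsesAtE2_iff`) that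
`CollapsesAtE2` says that `d_r = 0` for all `r ≥ 2`.

The group is `U(1) ⋊ S₃`, where `S₃` acts through the sign character by inversion
(`Pool/Agent/MP_a0fe07/Group.lean`), and the surface is any closed nonorientable surface of genus
`k ≥ 2` (`k = 2` is the Klein bottle).
-/

namespace Pool.Agent.Results.MP_a0fe07_gt.NotEquivariantlyFormal

open Pool.Agent.MP_a0fe07

/-- There is a compact Lie group `G` (namely `U(1) ⋊ S₃`) such that for **every** `k ≥ 2` the
conjugation action of `G` on `Hom(π₁(Σ_k), G)`, `π₁(Σ_k) = ⟨a_1, …, a_k ∣ a_1² ⋯ a_k² = 1⟩`, is not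
equivariantly formal: the group `G` has a universal principal bundle, and for no universal principal
bundle `E → E/G` does the Serre spectral sequence (rational coefficients) of
`Hom(π₁(Σ_k), G) → E ×_G Hom(π₁(Σ_k), G) → E/G` collapse at `E_2`. -/
theorem result :
    ∃ (G : Type) (_ : Group G) (_ : TopologicalSpace G),
      IsCompactLieGroup G ∧
      (∃ (E : Type) (_ : TopologicalSpace E) (_ : MulAction G E), IsUniversalBundle G E) ∧
      ∀ k : ℕ, 2 ≤ k → ¬ EquivariantlyFormal G (Rep (SurfaceGroup k) G) :=
  ⟨TwG, inferInstance, inferInstance, TwG.isCompactLieGroup,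
    ⟨EU, inferInstance, inferInstance, isUniversalBundle_EU⟩, not_formal⟩

end Pool.Agent.Results.MP_a0fe07_gt.NotEquivariantlyFormal
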